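import Mathlib
import Pool.Agent.H744R2.KZ.Props
import Pool.Agent.H759R2.Kad.Assemble4

open scoped ComplexOrder InnerProductSpace ComplexConjugate Topology
open Finset Filter

noncomputable section

namespace H744R2.KZ

open H759R2.Kad

universe u

namespace Acbaux

section

variable {A : Type u} [CStarAlgebra A] [PartialOrder A] [StarOrderedRing A]
variable {H : Type u} [NormedAddCommGroup H] [InnerProductSpace ℂ H] [CompleteSpace H]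

/-- component `k` of a vector of `HH (Fin m) (HH (Fin 2) H)` -/
def comp (m : ℕ) (k : Fin 2) (v : HH (Fin m) (HH (Fin 2) H)) : HH (Fin m) H :=
  WithLp.toLp 2 (fun j => v j k)

omit [InnerProductSpace ℂ H] [CompleteSpace H] in
theorem comp_apply (m : ℕ) (k : Fin 2) (v : HH (Fin m) (HH (Fin 2) H)) (j : Fin m) :
    comp m k v j = v j k := rfl

omit [InnerProductSpace ℂ H] [CompleteSpace H] in
theorem norm_sq_eq (m : ℕ) (v : HH (Fin m) (HH (Fin 2) H)) :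
    ‖v‖ ^ 2 = ‖comp m 0 v‖ ^ 2 + ‖comp m 1 v‖ ^ 2 := by
  rw [PiLp.norm_sq_eq_of_L2, PiLp.norm_sq_eq_of_L2, PiLp.norm_sq_eq_of_L2,
    ← Finset.sum_add_distrib]
  apply Finset.sum_congr rfl
  intro j _
  rw [PiLp.norm_sq_eq_of_L2, Fin.sum_univ_two]
  rfl

omit [PartialOrder A] [StarOrderedRing A] in
theorem uD_hom (π : A →⋆ₐ[ℂ] (H →L[ℂ] H)) (D : A →ₗ[ℂ] (H →L[ℂ] H))
    (hD : ∀ a b, D (a * b) = π a * D b + D a * π b) : IsHom (uD π D) := by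
  have hD1 : D 1 = 0 := by
    have h := hD 1 1
    simp only [mul_one, map_one, one_mul] at h
    exact left_eq_add.1 h
  refine ⟨?_, ?_⟩
  · intro a b
    ext x i
    fin_cases i <;>
      simp [uD, opMat_apply, Fin.sum_univ_two, hD, map_mul, map_add] <;> abel
  · ext x i
    fin_cases i <;> simp [uD, opMat_apply, Fin.sum_univ_two, hD1]

omit [PartialOrder A] [StarOrderedRing A] in
theorem comp_one (π : A →⋆ₐ[ℂ] (H →L[ℂ] H)) (D : A →ₗ[ℂ] (H →L[ℂ] H)) (m : ℕ)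
    (Y : CStarMatrix (Fin m) (Fin m) A) (v : HH (Fin m) (HH (Fin 2) H)) :
    comp m 1 (amp (uD π D) (Fin m) Y v) = amp π.toLinearMap (Fin m) Y (comp m 1 v) := by
  ext i
  rw [comp_apply, amp_apply, amp_apply, WithLp.ofLp_sum, Finset.sum_apply]
  apply Finset.sum_congr rfl
  intro j _
  simp [uD, opMat_apply, Fin.sum_univ_two, comp_apply]

omit [PartialOrder A] [StarOrderedRing A] in
theorem comp_zero (π : A →⋆ₐ[ℂ] (H →L[ℂ] H)) (D : A →ₗ[ℂ] (H →L[ℂ] H)) (m : ℕ)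
    (Y : CStarMatrix (Fin m) (Fin m) A) (v : HH (Fin m) (HH (Fin 2) H)) :
    comp m 0 (amp (uD π D) (Fin m) Y v) =
      amp π.toLinearMap (Fin m) Y (comp m 0 v) + amp D (Fin m) Y (comp m 1 v) := by
  ext i
  rw [PiLp.add_apply, comp_apply, amp_apply, amp_apply, amp_apply, WithLp.ofLp_sum,
    Finset.sum_apply, ← Finset.sum_add_distrib]
  apply Finset.sum_congr rfl
  intro j _
  simp [uD, opMat_apply, Fin.sum_univ_two, comp_apply]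

theorem amp_pi_le (π : A →⋆ₐ[ℂ] (H →L[ℂ] H)) (m : ℕ) (Y : CStarMatrix (Fin m) (Fin m) A) :
    ‖amp π.toLinearMap (Fin m) Y‖ ≤ ‖Y‖ := by
  rw [← ampHom_apply]
  exact NonUnitalStarAlgHom.norm_apply_le (ampHom π (Fin m)) Y

theorem lvl (π : A →⋆ₐ[ℂ] (H →L[ℂ] H)) (D : A →ₗ[ℂ] (H →L[ℂ] H)) (C : ℝ) (hC : 0 ≤ C)
    (hb : ∀ (n : ℕ) (X : CStarMatrix (Fin n) (Fin n) A), ‖amp D (Fin n) X‖ ≤ C * ‖X‖) (m : ℕ) :
    LvlBd (uD π D) m (1 + C) := by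
  intro Y
  have hY : 0 ≤ ‖Y‖ := norm_nonneg _
  apply ContinuousLinearMap.opNorm_le_bound _ (by positivity)
  intro v
  set a0 := amp π.toLinearMap (Fin m) Y (comp m 0 v) with ha0
  set a1 := amp π.toLinearMap (Fin m) Y (comp m 1 v) with ha1
  set d := amp D (Fin m) Y (comp m 1 v) with hd
  have h0 : ‖a0‖ ≤ ‖Y‖ * ‖comp m 0 v‖ :=
    ((amp π.toLinearMap (Fin m) Y).le_opNorm _).trans
      (mul_le_mul_of_nonneg_right (amp_pi_le π m Y) (norm_nonneg _))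
  have h1 : ‖a1‖ ≤ ‖Y‖ * ‖comp m 1 v‖ :=
    ((amp π.toLinearMap (Fin m) Y).le_opNorm _).trans
      (mul_le_mul_of_nonneg_right (amp_pi_le π m Y) (norm_nonneg _))
  have h2 : ‖d‖ ≤ C * ‖Y‖ * ‖comp m 1 v‖ :=
    ((amp D (Fin m) Y).le_opNorm _).trans
      (mul_le_mul_of_nonneg_right (hb m Y) (norm_nonneg _))
  have hv := norm_sq_eq m v
  have hv1 : ‖comp m 1 v‖ ≤ ‖v‖ := by
    apply le_of_sq_le_sq _ (norm_nonneg _)
    rw [hv]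
    have := sq_nonneg ‖comp m 0 v‖
    linarith
  have hA : ‖a0‖ ^ 2 + ‖a1‖ ^ 2 ≤ (‖Y‖ * ‖v‖) ^ 2 := by
    have e0 := pow_le_pow_left₀ (norm_nonneg _) h0 2
    have e1 := pow_le_pow_left₀ (norm_nonneg _) h1 2
    rw [mul_pow, hv]
    rw [mul_pow] at e0 e1
    linarith
  have hd' : ‖d‖ ≤ C * ‖Y‖ * ‖v‖ := h2.trans (mul_le_mul_of_nonneg_left hv1 (by positivity))
  have hsq : ‖amp (uD π D) (Fin m) Y v‖ ^ 2 = ‖a0 + d‖ ^ 2 + ‖a1‖ ^ 2 := by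
    rw [norm_sq_eq, comp_zero, comp_one]
  have ha0' : ‖a0‖ ≤ ‖Y‖ * ‖v‖ := by
    apply le_of_sq_le_sq _ (by positivity)
    have := sq_nonneg ‖a1‖
    linarith
  apply le_of_sq_le_sq _ (by positivity)
  rw [hsq]
  have h3 : ‖a0 + d‖ ≤ ‖a0‖ + ‖d‖ := norm_add_le _ _
  have h4 : ‖a0 + d‖ ^ 2 ≤ (‖a0‖ + ‖d‖) ^ 2 := pow_le_pow_left₀ (norm_nonneg _) h3 2
  have h5 : ‖a0‖ * ‖d‖ ≤ (‖Y‖ * ‖v‖) * (C * ‖Y‖ * ‖v‖) :=
    mul_le_mul ha0' hd' (norm_nonneg _) (by positivity)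
  have h6 : ‖d‖ ^ 2 ≤ (C * ‖Y‖ * ‖v‖) ^ 2 := pow_le_pow_left₀ (norm_nonneg _) hd' 2
  calc ‖a0 + d‖ ^ 2 + ‖a1‖ ^ 2 ≤ (‖a0‖ ^ 2 + ‖a1‖ ^ 2) + 2 * (‖a0‖ * ‖d‖) + ‖d‖ ^ 2 := by
        nlinarith
    _ ≤ (‖Y‖ * ‖v‖) ^ 2 + 2 * ((‖Y‖ * ‖v‖) * (C * ‖Y‖ * ‖v‖)) + (C * ‖Y‖ * ‖v‖) ^ 2 := by
        linarith
    _ = ((1 + C) * ‖Y‖ * ‖v‖) ^ 2 := by ring

end

end Acbaux

theorem prove_A_cb : A_cb.{u} := by
  intro A _ _ _ H _ _ _ π D hD C hC hb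
  obtain ⟨S, S', h1, h2, h3, h4, h5⟩ := final_similar A (HH (Fin 2) H) (uD π D)
    (Acbaux.uD_hom π D hD) (1 + C) (by linarith) (fun m => Acbaux.lvl π D C hC hb m)
  obtain ⟨T, hT, hTD⟩ := prove4_dinner A H π D hD S S' h1 h2 h5
  refine ⟨T, hT.trans ?_, hTD⟩
  nlinarith [sq_nonneg (‖S‖ - ‖S'‖)]

end H744R2.KZ
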